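import Mathlib
import Pool.Agent.Q267.DV.PellR

/-!
# Pell polynomials at almost every real point: infinitely many prime integer parts

For real `y` let `P y n` be the Pell polynomials: `P y 0 = 0`, `P y 1 = 1`, `P y (n + 2) = 2 y P y (n + 1) + P y n`;
at `y = 1` they are the Pell numbers.  For every positive `C ^ 2` function `A` on `(0, ∞)`, every set `S` of
indices with divergent sum of `1 / n` (for example the prime indices) and almost every `y > 0` the
integer part of `A y * P y n` is prime for infinitely many `n ∈ S`.  If the sum converges, then for almost every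
`y > 0` it is prime for only finitely many `n ∈ S`.
-/

set_option autoImplicit false

namespace Pool.Agent.Results.MP_c66c79_nt.EveryDivergentIndexSet

open MeasureTheory

/-- The Pell numbers. -/
def pell : ℕ → ℕ
  | 0 => 0
  | 1 => 1
  | n + 2 => 2 * pell (n + 1) + pell n

/-- The Pell polynomials at a real point. -/
def P (y : ℝ) : ℕ → ℝ
  | 0 => 0
  | 1 => 1
  | n + 2 => 2 * y * P y (n + 1) + P y n

lemma P_eq (y : ℝ) (n : ℕ) : Pool.Agent.W66C.lU (2 * y) n = P y n := by
  induction n using Nat.twoStepInduction with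
  | zero => rfl
  | one => rfl
  | more n h1 h2 =>
    show 2 * y * Pool.Agent.W66C.lU (2 * y) (n + 1) + Pool.Agent.W66C.lU (2 * y) n = _
    rw [h1, h2]
    rfl

/-- The dichotomy: infinitely many prime values for almost every `y` if and only if the sum of `1 / n` over
the index set diverges. -/
theorem result :
    (∀ n : ℕ, P 1 n = pell n) ∧
    (∀ A : ℝ → ℝ, ContDiffOn ℝ 2 A (Set.Ioi 0) → (∀ y, 0 < y → 0 < A y) →
      ∀ S : Set ℕ, (¬ Summable fun n : S => 1 / ((n : ℕ) : ℝ)) →
        ∀ᵐ y : ℝ, 0 < y → {n : ℕ | n ∈ S ∧ (⌊A y * P y n⌋₊).Prime}.Infinite) ∧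
    (∀ A : ℝ → ℝ, ContDiffOn ℝ 2 A (Set.Ioi 0) → (∀ y, 0 < y → 0 < A y) →
      ∀ S : Set ℕ, (Summable fun n : S => 1 / ((n : ℕ) : ℝ)) →
        ∀ᵐ y : ℝ, 0 < y → {n : ℕ | n ∈ S ∧ (⌊A y * P y n⌋₊).Prime}.Finite) := by
  refine ⟨fun n => ?_, fun A hA hA0 S hS => ?_, fun A hA hA0 S hS => ?_⟩
  · induction n using Nat.twoStepInduction with
    | zero => simp [P, pell]
    | one => simp [P, pell]
    | more n h1 h2 =>
      show 2 * 1 * P 1 (n + 1) + P 1 n = ((2 * pell (n + 1) + pell n : ℕ) : ℝ)
      rw [h1, h2]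
      push_cast
      ring
  · have h := (Pool.Agent.Q267.DV.pellU hA hA0 S).1 hS
    simp only [P_eq] at h
    exact h
  · have h := (Pool.Agent.Q267.DV.pellU hA hA0 S).2 hS
    simp only [P_eq] at h
    exact h

end Pool.Agent.Results.MP_c66c79_nt.EveryDivergentIndexSet
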