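import Mathlib
import Pool.Agent.Q267.DV.Rep
import Pool.Agent.Q267.DV.PellR

/-!
# Pell polynomials at almost every real point: repulsion of the prime indices

For real `y` let `P y n` be the Pell polynomials; at `y = 1` they are the Pell numbers.  Let `A` be a positive
`C ^ 2` function on `(0, ∞)`.  For every set `R` of pairs `m < n` with finite sum of `1 / (m n)` and almost every
`y > 0` the integer parts of `A y * P y m` and `A y * P y n` are both prime for only finitely many pairs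
`(m, n)` in `R`.  Hence, for every `f ≥ 0` with finite sum of `f m / m ^ 2` (for example
`f m = m / (log m) ^ (1 + ε)`) and almost every `y > 0`, any two large indices `m < n` with prime integer parts
satisfy `n > m + f m`.
-/

set_option autoImplicit false

namespace Pool.Agent.Results.MP_c66c79_nt.RepulsionOfIndices

open MeasureTheory

/-- The Pell numbers. -/
def pell : ℕ → ℕ
  | 0 => 0
  | 1 => 1
  | n + 2 => 2 * pell (n + 1) + pell n

/-- The Pell polynomials at a real point. -/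
def P (y : ℝ) : ℕ → ℝ
  | 0 => 0
  | 1 => 1
  | n + 2 => 2 * y * P y (n + 1) + P y n

lemma P_eq (y : ℝ) (n : ℕ) : Pool.Agent.W66C.lU (2 * y) n = P y n := by
  induction n using Nat.twoStepInduction with
  | zero => rfl
  | one => rfl
  | more n h1 h2 =>
    show 2 * y * Pool.Agent.W66C.lU (2 * y) (n + 1) + Pool.Agent.W66C.lU (2 * y) n = _
    rw [h1, h2]
    rfl

lemma pairs {A : ℝ → ℝ} (hA : ContDiffOn ℝ 2 A (Set.Ioi 0)) (hA0 : ∀ y, 0 < y → 0 < A y)
    {R : Set (ℕ × ℕ)} (hR : ∀ r ∈ R, 1 ≤ r.1 ∧ r.1 < r.2)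
    (hs : Summable fun r : R => 1 / (((r : ℕ × ℕ).1 : ℝ) * ((r : ℕ × ℕ).2 : ℝ))) :
    ∀ᵐ y : ℝ, 0 < y → {r : ℕ × ℕ | r ∈ R ∧ (⌊A y * P y r.1⌋₊).Prime ∧ (⌊A y * P y r.2⌋₊).Prime}.Finite := by
  filter_upwards [Pool.Agent.Q267.DV.ae_two (Pool.Agent.Q267.DV.U_rep (Pool.Agent.Q267.DV.half_diff hA)
    (fun x hx => hA0 _ (half_pos hx)) hR hs)] with y h1 hy
  have h2 := h1 (by linarith)
  have e0 : 2 * y / 2 = y := by ring
  simp only [e0, P_eq] at h2
  exact h2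

/-- Repulsion of the prime indices. -/
theorem result :
    (∀ n : ℕ, P 1 n = pell n) ∧
    (∀ A : ℝ → ℝ, ContDiffOn ℝ 2 A (Set.Ioi 0) → (∀ y, 0 < y → 0 < A y) →
      ∀ R : Set (ℕ × ℕ), (∀ r ∈ R, 1 ≤ r.1 ∧ r.1 < r.2) →
        (Summable fun r : R => 1 / (((r : ℕ × ℕ).1 : ℝ) * ((r : ℕ × ℕ).2 : ℝ))) →
        ∀ᵐ y : ℝ, 0 < y →
          {r : ℕ × ℕ | r ∈ R ∧ (⌊A y * P y r.1⌋₊).Prime ∧ (⌊A y * P y r.2⌋₊).Prime}.Finite) ∧
    (∀ A : ℝ → ℝ, ContDiffOn ℝ 2 A (Set.Ioi 0) → (∀ y, 0 < y → 0 < A y) →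
      ∀ f : ℕ → ℝ, (∀ m, 0 ≤ f m) → (Summable fun m : ℕ => f m / (m : ℝ) ^ 2) →
        ∀ᵐ y : ℝ, 0 < y → ∃ M : ℕ, ∀ m n : ℕ, M ≤ m → m < n → (⌊A y * P y m⌋₊).Prime →
          (⌊A y * P y n⌋₊).Prime → (m : ℝ) + f m < n) := by
  refine ⟨fun n => ?_, fun A hA hA0 R hR hs => pairs hA hA0 hR hs, fun A hA hA0 f hf0 hf => ?_⟩
  · induction n using Nat.twoStepInduction with
    | zero => simp [P, pell]
    | one => simp [P, pell]
    | more n h1 h2 =>
      show 2 * 1 * P 1 (n + 1) + P 1 n = ((2 * pell (n + 1) + pell n : ℕ) : ℝ)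
      rw [h1, h2]
      push_cast
      ring
  · filter_upwards [pairs hA hA0 (R := Pool.Agent.Q267.DV.close f) (fun r hr => ⟨hr.1, hr.2.1⟩)
      (Pool.Agent.Q267.DV.close_summable hf0 hf)] with y hy h0
    exact Pool.Agent.Q267.DV.gap_of (P := fun m => (⌊A y * P y m⌋₊).Prime) (hy h0)

end Pool.Agent.Results.MP_c66c79_nt.RepulsionOfIndices
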